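import Pool.Agent.N929.AP.Stm

/-!
# Project AP (helper929), leaf LOW (helper505): lower bound for the number of polyominoes
-/

set_option autoImplicit false

namespace Pool.Agent.N505.AP

open Finset Filter Topology Pool.Agent.N789.Kl

/-- the number of polyominoes, with the value `1` at `0` -/
noncomputable def T (k : ℕ) : ℝ := if k = 0 then 1 else (t k : ℝ)

theorem T_pos (k : ℕ) (hk : 1 ≤ k) : T k = t k := by
  unfold T
  rw [if_neg (by omega)]

theorem one_le_T (k : ℕ) : 1 ≤ T k := by
  rcases Nat.eq_zero_or_pos k with rfl | hk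
  · unfold T; rw [if_pos rfl]
  · rw [T_pos k hk]
    exact_mod_cast t_pos hk

theorem T_mul (m n : ℕ) : T m * T n ≤ T (m + n) := by
  rcases Nat.eq_zero_or_pos m with rfl | hm
  · rw [zero_add]
    have : T 0 = 1 := by unfold T; rw [if_pos rfl]
    rw [this, one_mul]
  rcases Nat.eq_zero_or_pos n with rfl | hn
  · rw [add_zero]
    have : T 0 = 1 := by unfold T; rw [if_pos rfl]
    rw [this, mul_one]
  rw [T_pos m hm, T_pos n hn, T_pos (m + n) (by omega)]
  exact_mod_cast t_mul_le m n

theorem stepA (K : ℝ) (hK : K * Real.log (8 / 7) = 6) : ∀ N : ℕ, 1 ≤ N → ∀ m : ℕ, m ≤ N →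
    (t N : ℝ) ≤ Real.exp (K * Real.log N ^ 2) * (T m * T (N - m)) := by
  have hl : 0 < Real.log (8 / 7) := Real.log_pos (by norm_num)
  have hK0 : 0 < K := by
    by_contra h
    push Not at h
    have := mul_nonpos_of_nonpos_of_nonneg h hl.le
    linarith
  intro N
  induction N using Nat.strong_induction_on with
  | _ N ih =>
    intro hN m hm
    rcases Nat.lt_or_ge N 2 with hN2 | hN2
    · obtain rfl : N = 1 := by omega
      have h0 : T 0 = 1 := by unfold T; rw [if_pos rfl]
      have h1 : T 1 = t 1 := T_pos 1 le_rfl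
      rcases Nat.lt_or_ge m 1 with hm1 | hm1
      · obtain rfl : m = 0 := by omega
        simp [h0, h1]
      · obtain rfl : m = 1 := by omega
        simp [h0, h1]
    · have hNr : (2 : ℝ) ≤ N := by exact_mod_cast hN2
      obtain ⟨X, hX⟩ : ∃ X, X = T m * T (N - m) := ⟨_, rfl⟩
      have hXpos : 0 < X := by
        rw [hX]; exact mul_pos (by linarith [one_le_T m]) (by linarith [one_le_T (N - m)])
      obtain ⟨Y, hY⟩ : ∃ Y, Y = Real.exp (K * Real.log (7 * N / 8) ^ 2) := ⟨_, rfl⟩
      have hYpos : 0 < Y := by rw [hY]; exact Real.exp_pos _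
      rw [← hX]
      have hlogle : ∀ p : ℕ, 1 ≤ p → (p : ℝ) ≤ 7 * N / 8 →
          Real.exp (K * Real.log p ^ 2) ≤ Y := by
        intro p hp hp2
        rw [hY]
        apply Real.exp_le_exp.2
        apply mul_le_mul_of_nonneg_left _ hK0.le
        have hp1 : (1 : ℝ) ≤ p := by exact_mod_cast hp
        exact pow_le_pow_left₀ (Real.log_nonneg hp1) (Real.log_le_log (by linarith) hp2) 2
      have hterm : ∀ p ∈ (Finset.HasAntidiagonal.antidiagonal N).filter
          (fun p => N ≤ 4 * p.1 + 1 ∧ N ≤ 4 * p.2 + 1),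
          ((4 * (a p.1 * a p.2) : ℕ) : ℝ) ≤ 4 * (N : ℝ) ^ 2 * (Y * X) := by
        rintro ⟨p, q⟩ hp
        rw [Finset.mem_filter, Finset.HasAntidiagonal.mem_antidiagonal] at hp
        obtain ⟨hpq, hp1, hq1⟩ := hp
        simp only at hpq hp1 hq1 ⊢
        have hp0 : 1 ≤ p := by omega
        have hq0 : 1 ≤ q := by omega
        have hpr : (p : ℝ) ≤ 7 * N / 8 := by
          have e1 : 8 * p ≤ 7 * N := by omega
          have e2 : (8 : ℝ) * p ≤ 7 * N := by exact_mod_cast e1
          linarith
        have hqr : (q : ℝ) ≤ 7 * N / 8 := by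
          have e1 : 8 * q ≤ 7 * N := by omega
          have e2 : (8 : ℝ) * q ≤ 7 * N := by exact_mod_cast e1
          linarith
        have htt : (t p : ℝ) * t q ≤ Y * X := by
          have tp : (0 : ℝ) ≤ t p := Nat.cast_nonneg _
          have tq : (0 : ℝ) ≤ t q := Nat.cast_nonneg _
          rcases le_total m p with hmp | hmp
          · have h1 := ih p (by omega) hp0 m hmp
            have h2 : T (p - m) * T q ≤ T (N - m) := by
              have h3 := T_mul (p - m) q
              have h4 : p - m + q = N - m := by omega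
              rwa [h4] at h3
            rw [T_pos q hq0] at h2
            have hTm : 0 < T m := by linarith [one_le_T m]
            calc (t p : ℝ) * t q ≤ (Real.exp (K * Real.log p ^ 2) * (T m * T (p - m))) * t q :=
                  mul_le_mul_of_nonneg_right h1 tq
              _ = Real.exp (K * Real.log p ^ 2) * (T m * (T (p - m) * t q)) := by ring
              _ ≤ Y * (T m * T (N - m)) := by
                  apply mul_le_mul (hlogle p hp0 hpr) _ _ hYpos.le
                  · exact mul_le_mul_of_nonneg_left h2 hTm.le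
                  · exact mul_nonneg hTm.le (mul_nonneg (by linarith [one_le_T (p - m)]) tq)
              _ = Y * X := by rw [hX]
          · have h1 := ih q (by omega) hq0 (m - p) (by omega)
            have h2 : T p * T (m - p) ≤ T m := by
              have h3 := T_mul p (m - p)
              have h4 : p + (m - p) = m := by omega
              rwa [h4] at h3
            rw [T_pos p hp0] at h2
            have h5 : q - (m - p) = N - m := by omega
            rw [h5] at h1
            have hTm : 0 < T (N - m) := by linarith [one_le_T (N - m)]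
            calc (t p : ℝ) * t q ≤
                  t p * (Real.exp (K * Real.log q ^ 2) * (T (m - p) * T (N - m))) :=
                  mul_le_mul_of_nonneg_left h1 tp
              _ = Real.exp (K * Real.log q ^ 2) * ((t p * T (m - p)) * T (N - m)) := by ring
              _ ≤ Y * (T m * T (N - m)) := by
                  apply mul_le_mul (hlogle q hq0 hqr) _ _ hYpos.le
                  · exact mul_le_mul_of_nonneg_right h2 hTm.le
                  · exact mul_nonneg (mul_nonneg tp (by linarith [one_le_T (m - p)])) hTm.le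
              _ = Y * X := by rw [hX]
        have ha1 : (a p : ℝ) ≤ N * t p := by
          have h1 : a p ≤ N * t p := (a_le p).trans (Nat.mul_le_mul_right _ (by omega))
          exact_mod_cast h1
        have ha2 : (a q : ℝ) ≤ N * t q := by
          have h1 : a q ≤ N * t q := (a_le q).trans (Nat.mul_le_mul_right _ (by omega))
          exact_mod_cast h1
        push_cast
        have hmul : (a p : ℝ) * a q ≤ (N * t p) * (N * t q) :=
          mul_le_mul ha1 ha2 (Nat.cast_nonneg _) (by positivity)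
        calc (4 : ℝ) * (a p * a q) ≤ 4 * ((N * t p) * (N * t q)) := by linarith
          _ = 4 * (N : ℝ) ^ 2 * (t p * t q) := by ring
          _ ≤ 4 * (N : ℝ) ^ 2 * (Y * X) := mul_le_mul_of_nonneg_left htt (by positivity)
      have hsum : (t N : ℝ) ≤ ((N : ℝ) + 1) * (4 * (N : ℝ) ^ 2 * (Y * X)) := by
        have h1 : (t N : ℝ) ≤ ((∑ p ∈ (Finset.HasAntidiagonal.antidiagonal N).filter
          (fun p => N ≤ 4 * p.1 + 1 ∧ N ≤ 4 * p.2 + 1), 4 * (a p.1 * a p.2) : ℕ) : ℝ) := by
          exact_mod_cast t_le_split hN2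
        rw [Nat.cast_sum] at h1
        refine h1.trans ((Finset.sum_le_sum hterm).trans ?_)
        rw [Finset.sum_const, nsmul_eq_mul]
        refine mul_le_mul_of_nonneg_right ?_ (by positivity)
        have h2 : ((Finset.HasAntidiagonal.antidiagonal N).filter
          (fun p : ℕ × ℕ => N ≤ 4 * p.1 + 1 ∧ N ≤ 4 * p.2 + 1)).card ≤ N + 1 := by
          refine (Finset.card_filter_le _ _).trans ?_
          rw [Finset.Nat.card_antidiagonal]
        exact_mod_cast h2
      refine hsum.trans ?_
      -- the exponent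
      have hlog1 : Real.log (7 * N / 8) = Real.log N - Real.log (8 / 7) := by
        rw [← Real.log_div (by positivity) (by norm_num)]
        congr 1
        field_simp
      have hlog2 : 0 ≤ Real.log (7 * N / 8) := Real.log_nonneg (by linarith)
      have hexp : Y * (N : ℝ) ^ 6 ≤ Real.exp (K * Real.log N ^ 2) := by
        have h1 : (N : ℝ) ^ 6 = Real.exp (6 * Real.log N) := by
          have hNpos : (0 : ℝ) < N := by linarith
          rw [mul_comm, ← Real.rpow_def_of_pos hNpos]
          norm_cast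
        rw [hY, h1, ← Real.exp_add]
        apply Real.exp_le_exp.2
        have h2 : Real.log N ^ 2 - Real.log (7 * N / 8) ^ 2 =
            Real.log (8 / 7) * (Real.log N + Real.log (7 * N / 8)) := by
          rw [hlog1]; ring
        have h3 : K * (Real.log N ^ 2 - Real.log (7 * N / 8) ^ 2) =
            6 * (Real.log N + Real.log (7 * N / 8)) := by
          rw [h2, ← mul_assoc, hK]
        nlinarith
      have hpoly : ((N : ℝ) + 1) * (4 * (N : ℝ) ^ 2) ≤ (N : ℝ) ^ 6 := by
        have h1 : (N : ℝ) + 1 ≤ (N : ℝ) ^ 2 := by nlinarith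
        have h2 : (4 : ℝ) ≤ (N : ℝ) ^ 2 := by nlinarith
        calc ((N : ℝ) + 1) * (4 * (N : ℝ) ^ 2) ≤ (N : ℝ) ^ 2 * ((N : ℝ) ^ 2 * (N : ℝ) ^ 2) := by
              apply mul_le_mul h1 _ (by positivity) (by positivity)
              exact mul_le_mul_of_nonneg_right h2 (by positivity)
          _ = (N : ℝ) ^ 6 := by ring
      calc ((N : ℝ) + 1) * (4 * (N : ℝ) ^ 2 * (Y * X)) =
            (((N : ℝ) + 1) * (4 * (N : ℝ) ^ 2)) * (Y * X) := by ring
        _ ≤ (N : ℝ) ^ 6 * (Y * X) := mul_le_mul_of_nonneg_right hpoly (by positivity)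
        _ = (Y * (N : ℝ) ^ 6) * X := by ring
        _ ≤ Real.exp (K * Real.log N ^ 2) * X := mul_le_mul_of_nonneg_right hexp hXpos.le

theorem low : Pool.Agent.N929.AP.S_LOW := by
  have hl : 0 < Real.log (8 / 7) := Real.log_pos (by norm_num)
  obtain ⟨K, hKdef⟩ : ∃ K : ℝ, K = 6 / Real.log (8 / 7) := ⟨_, rfl⟩
  have hK : K * Real.log (8 / 7) = 6 := by rw [hKdef]; field_simp
  have hK0 : 0 < K := by rw [hKdef]; positivity
  obtain ⟨l, hldef⟩ : ∃ l : ℝ, l = Real.log 2 := ⟨_, rfl⟩
  have hlpos : 0 < l := by rw [hldef]; exact Real.log_pos (by norm_num)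
  obtain ⟨φ, hφ⟩ : ∃ φ : ℕ → ℝ, ∀ n, φ n =
    K * (Real.log n ^ 2 + 4 * l * Real.log n + 6 * l ^ 2) := ⟨_, fun n => rfl⟩
  have hφ0 : ∀ n : ℕ, 1 ≤ n → 0 ≤ φ n := by
    intro n hn
    rw [hφ]
    have : 0 ≤ Real.log n := Real.log_nonneg (by exact_mod_cast hn)
    positivity
  have hdbl : ∀ n : ℕ, 1 ≤ n → Real.log (t (2 * n)) + φ (2 * n) ≤
      2 * (Real.log (t n) + φ n) := by
    intro n hn
    have h1 := stepA K hK (2 * n) (by omega) n (by omega)
    have h2 : 2 * n - n = n := by omega
    rw [h2, T_pos n hn] at h1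
    have h3 : (0 : ℝ) < t n := by exact_mod_cast t_pos hn
    have h4 : (0 : ℝ) < t (2 * n) := by exact_mod_cast t_pos (n := 2 * n) (by omega)
    have h5 := Real.log_le_log h4 h1
    rw [Real.log_mul (Real.exp_pos _).ne' (mul_pos h3 h3).ne', Real.log_exp,
      Real.log_mul h3.ne' h3.ne'] at h5
    have hn0 : (0 : ℝ) < n := by exact_mod_cast hn
    have h6 : Real.log ((2 * n : ℕ) : ℝ) = l + Real.log n := by
      push_cast
      rw [Real.log_mul (by norm_num) hn0.ne', hldef]
    rw [h6] at h5
    rw [hφ, hφ, h6]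
    linarith [show K * (l + Real.log n) ^ 2 + K * ((l + Real.log n) ^ 2 + 4 * l *
      (l + Real.log n) + 6 * l ^ 2) = 2 * (K * (Real.log n ^ 2 + 4 * l * Real.log n +
        6 * l ^ 2)) by ring]
  refine ⟨11 * K, by positivity, ?_⟩
  intro n hn
  obtain ⟨H, hH⟩ : ∃ H, H = Real.log (t n) + φ n := ⟨_, rfl⟩
  have hiter : ∀ j : ℕ, Real.log (t (2 ^ j * n)) + φ (2 ^ j * n) ≤ 2 ^ j * H := by
    intro j
    induction j with
    | zero => rw [pow_zero, one_mul, pow_zero, one_mul, hH]
    | succ j ih =>
      have h1 := hdbl (2 ^ j * n) (Nat.mul_pos (by positivity) (by omega))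
      have h2 : 2 ^ (j + 1) * n = 2 * (2 ^ j * n) := by ring
      rw [h2]
      refine h1.trans ?_
      rw [pow_succ]
      linarith
  have hn0 : (0 : ℝ) < n := by exact_mod_cast (by omega : 0 < n)
  have hbound : ∀ j : ℕ, (t (2 ^ j * n) : ℝ) ^ ((1 : ℝ) / ((2 ^ j * n : ℕ) : ℝ)) ≤
      Real.exp (H / n) := by
    intro j
    have hpos : 1 ≤ 2 ^ j * n := Nat.mul_pos (by positivity) (by omega)
    have h1 := hiter j
    have h2 := hφ0 (2 ^ j * n) hpos
    have h3 : (0 : ℝ) < t (2 ^ j * n) := by exact_mod_cast t_pos hpos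
    rw [Real.rpow_def_of_pos h3]
    apply Real.exp_le_exp.2
    have h4 : Real.log (t (2 ^ j * n)) ≤ 2 ^ j * H := by linarith
    have h5 : (((2 ^ j * n : ℕ) : ℝ)) = 2 ^ j * n := by push_cast; ring
    rw [h5]
    calc Real.log (t (2 ^ j * n)) * (1 / (2 ^ j * n)) ≤ (2 ^ j * H) * (1 / (2 ^ j * n)) :=
          mul_le_mul_of_nonneg_right h4 (by positivity)
      _ = H / n := by field_simp
  have hsub : Tendsto (fun j : ℕ => 2 ^ j * n) atTop atTop := by
    refine tendsto_atTop_mono (f := fun j : ℕ => j) (fun j => ?_) tendsto_id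
    calc j ≤ 2 ^ j := (Nat.lt_two_pow_self).le
      _ = 2 ^ j * 1 := (mul_one _).symm
      _ ≤ 2 ^ j * n := Nat.mul_le_mul_left _ (by omega)
  have hlim := tendsto_lam.comp hsub
  have hle : lam ≤ Real.exp (H / n) := le_of_tendsto' hlim hbound
  have hlam : 0 < lam := lam_pos
  have h1 : lam ^ n ≤ Real.exp (H / n) ^ n := pow_le_pow_left₀ hlam.le hle n
  have h2 : Real.exp (H / n) ^ n = Real.exp H := by
    rw [← Real.exp_nat_mul]
    congr 1
    field_simp
  rw [h2] at h1
  refine h1.trans ?_
  have htn : (0 : ℝ) < t n := by exact_mod_cast t_pos (n := n) (by omega)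
  rw [hH, Real.exp_add, Real.exp_log htn]
  apply mul_le_mul_of_nonneg_left _ htn.le
  apply Real.exp_le_exp.2
  rw [hφ]
  have hln : l ≤ Real.log n := by
    rw [hldef]
    exact Real.log_le_log (by norm_num) (by exact_mod_cast hn)
  have h3 : Real.log n ^ 2 + 4 * l * Real.log n + 6 * l ^ 2 ≤ 11 * Real.log n ^ 2 := by
    nlinarith
  calc K * (Real.log n ^ 2 + 4 * l * Real.log n + 6 * l ^ 2) ≤ K * (11 * Real.log n ^ 2) :=
        mul_le_mul_of_nonneg_left h3 hK0.le
    _ = 11 * K * Real.log n ^ 2 := by ring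

end Pool.Agent.N505.AP
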